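import Mathlib
import Pool.Agent.MP_df75fe_nt.h54.En5

set_option autoImplicit false

namespace Pool.Agent.Results.MP_df75fe_nt.Discriminant

/-- For a set `X` of `n ≥ 3` integers whose sums of two different elements are squares, the product
of the powers of exponent `n - 3` of the sums `a + b` is at most the product of the powers of exponent
`n - 2` of the distances `|a - b|`, both over the ordered pairs of different elements. -/
theorem result (X : Finset ℤ) (hs : ∀ a ∈ X, ∀ b ∈ X, a ≠ b → IsSquare (a + b))
    (h3 : 3 ≤ X.card) :
    ∏ e ∈ X.offDiag, (e.1 + e.2) ^ (X.card - 3) ≤ ∏ e ∈ X.offDiag, |e.1 - e.2| ^ (X.card - 2) :=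
  Pool.Agent.MP_df75fe_nt.En.disc X hs h3

end Pool.Agent.Results.MP_df75fe_nt.Discriminant
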