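import Mathlib
import Pool.Agent.MP_df75fe_nt.Main

set_option autoImplicit false

namespace Pool.Agent.Results.MP_df75fe_nt.SizeBound

/-- A set of `n ≥ 2` integers, all at most `N`, whose sums of two different elements are squares
satisfies `128 ^ n ≤ 2 ^ 77 * n ^ 16 * N ^ 2`. -/
theorem result (s : Finset ℤ) (N : ℕ) (hs : ∀ a ∈ s, ∀ b ∈ s, a ≠ b → IsSquare (a + b))
    (hN : ∀ a ∈ s, a ≤ (N : ℤ)) (h2 : 2 ≤ s.card) :
    128 ^ s.card ≤ 2 ^ 77 * s.card ^ 16 * N ^ 2 :=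
  Pool.Agent.MP_df75fe_nt.bound N s hs hN h2

end Pool.Agent.Results.MP_df75fe_nt.SizeBound
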