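import Mathlib
import Pool.Agent.MP_df75fe_nt.h54.En7

set_option autoImplicit false

namespace Pool.Agent.Results.MP_df75fe_nt.SmoothStar

/-- Let `X` be a finite set of integers, all at most `N`, whose sums of two different elements are
squares, and let `b` be an element of `X`. Choose for each other element `a` a number `q a`, equal to
`1` or a prime power, that divides the quotient of `a - b` by `gcd (a, b)`. Then the sum of the
`log (q a)` is `O (√|X| log N)`. -/
theorem result (X : Finset ℤ) (N : ℕ) (hN : 2 ≤ N) (hX : ∀ a ∈ X, a ≤ (N : ℤ))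
    (hs : ∀ a ∈ X, ∀ b ∈ X, a ≠ b → IsSquare (a + b)) (b : ℤ) (hb : b ∈ X) (q : ℤ → ℕ)
    (hq : ∀ a ∈ X, a ≠ b →
      (q a = 1 ∨ IsPrimePow (q a)) ∧ (q a : ℤ) * (Int.gcd a b : ℤ) ∣ a - b) :
    ∑ a ∈ X.erase b, Real.log (q a : ℝ) ≤ 540000 * Real.sqrt (X.card : ℝ) * Real.log (N : ℝ) :=
  Pool.Agent.MP_df75fe_nt.En.smooth_one X N hN hX hs b hb q hq

end Pool.Agent.Results.MP_df75fe_nt.SmoothStar
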