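import Mathlib
import Pool.Agent.MP_df75fe_nt.SubMain

set_option autoImplicit false

namespace Pool.Agent.Results.MP_df75fe_nt.SubLog

/-- If all sums `x + y` of different elements `x ∈ X`, `y ∈ Y` are squares not exceeding `N`, then
the smaller of the two sets has `O (log N / log log N)` elements. -/
theorem result (N : ℕ) (hN : 3 ≤ N) (X Y : Finset ℤ)
    (h : ∀ x ∈ X, ∀ y ∈ Y, x ≠ y → IsSquare (x + y) ∧ x + y ≤ (N : ℤ)) :
    ((min X.card Y.card : ℕ) : ℝ) ≤ 3500000 * Real.log N / Real.log (Real.log N) :=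
  Pool.Agent.MP_df75fe_nt.Sub.main N hN X Y h

end Pool.Agent.Results.MP_df75fe_nt.SubLog
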